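import Mathlib

set_option autoImplicit false

/-!
Property (VRC) for amalgams over virtually cyclic subgroups (MP_61a31f_al).  Definitions.
-/

namespace Pool.Agent.Y35.VR

/-- The infinite cyclic group, written multiplicatively. -/
abbrev Zz : Type := Multiplicative ℤ

/-- `H` is a virtual retract of `G`: there are a subgroup `K` of finite index containing `H` and a
homomorphism from `K` to `H` which is the identity on `H`. -/
def IsVR {G : Type} [Group G] (H : Subgroup G) : Prop :=
  ∃ (K : Subgroup G) (h : H ≤ K) (ρ : K →* H), K.FiniteIndex ∧ ∀ x : H, ρ ⟨x.1, h x.2⟩ = x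

/-- Property (VRC): every cyclic subgroup is a virtual retract. -/
def VRC (G : Type) [Group G] : Prop := ∀ g : G, IsVR (Subgroup.zpowers g)

/-- Virtually cyclic: there is a cyclic subgroup of finite index. -/
def VirtCyc (R : Type) [Group R] : Prop := ∃ r : R, (Subgroup.zpowers r).FiniteIndex

section Amal

variable {P Q R : Type} [Group P] [Group Q] [Group R]

/-- The normal subgroup of the free product generated by `φ r (ψ r)⁻¹`. -/
def amalKer (φ : R →* P) (ψ : R →* Q) : Subgroup (Monoid.Coprod P Q) :=
  Subgroup.normalClosure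
    (Set.range fun r : R => Monoid.Coprod.inl (φ r) * (Monoid.Coprod.inr (ψ r))⁻¹)

instance (φ : R →* P) (ψ : R →* Q) : (amalKer φ ψ).Normal := by
  unfold amalKer
  infer_instance

/-- The amalgamated free product of `P` and `Q` along `φ`, `ψ`. -/
abbrev Amal (φ : R →* P) (ψ : R →* Q) : Type := Monoid.Coprod P Q ⧸ amalKer φ ψ

/-- The canonical homomorphism from `P`. -/
def il (φ : R →* P) (ψ : R →* Q) : P →* Amal φ ψ :=
  (QuotientGroup.mk' (amalKer φ ψ)).comp Monoid.Coprod.inl

/-- The canonical homomorphism from `Q`. -/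
def ir (φ : R →* P) (ψ : R →* Q) : Q →* Amal φ ψ :=
  (QuotientGroup.mk' (amalKer φ ψ)).comp Monoid.Coprod.inr

end Amal

/-- The graph of a homomorphism `χ : P' → Z`, a subgroup of `P × Z`. -/
def Gr {P : Type} [Group P] (P' : Subgroup P) (χ : P' →* Zz) : Subgroup (P × Zz) :=
  (MonoidHom.prod P'.subtype χ).range

end Pool.Agent.Y35.VR
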