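import Mathlib
import Pool.Agent.Y35.VR.Def

set_option autoImplicit false

/-!
Property (VRC) for amalgams over virtually cyclic subgroups (MP_61a31f_al).  Statements.
-/

namespace Pool.Agent.Y35.VR

/-- Criterion for elements of infinite order. -/
def S_CRIT : Prop :=
  ∀ (G E : Type) [Group G] (Φ : G →* Equiv.Perm E) (T : Zz →* Equiv.Perm E),
    (∀ g z e, Φ g (T z e) = T z (Φ g e)) → (∀ z e, T z e = e → z = 1) →
    (∃ s : Finset E, ∀ e, ∃ e' ∈ s, ∃ z, T z e' = e) →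
    ∀ (g : G) (m : ℕ) (e : E) (z : Zz), Φ (g ^ m) e = T z e → z ≠ 1 →
      IsVR (Subgroup.zpowers g)

/-- Criterion for elements of finite order. -/
def S_CRITF : Prop :=
  ∀ (G E : Type) [Group G] (Φ : G →* Equiv.Perm E) (T : Zz →* Equiv.Perm E),
    (∀ g z e, Φ g (T z e) = T z (Φ g e)) →
    (∃ s : Finset E, ∀ e, ∃ e' ∈ s, ∃ z, T z e' = e) →
    ∀ g : G, (∀ n : ℕ, g ^ n ≠ 1 → ∃ e, ∀ z, Φ (g ^ n) e ≠ T z e) → IsOfFinOrder g →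
      IsVR (Subgroup.zpowers g)

/-- Homomorphisms to `ℤ` from (VRC). -/
def S_INF : Prop :=
  ∀ (G : Type) [Group G], VRC G → ∀ g : G, ¬ IsOfFinOrder g →
    ∃ (N : Subgroup G) (χ : N →* Zz), N.Normal ∧ N.FiniteIndex ∧
      ∃ (m : ℕ) (h : g ^ m ∈ N), 0 < m ∧ χ ⟨g ^ m, h⟩ ≠ 1

/-- Residual finiteness from (VRC). -/
def S_RF : Prop :=
  ∀ (G : Type) [Group G], VRC G → ∀ g : G, g ≠ 1 →
    ∃ N : Subgroup G, N.Normal ∧ N.FiniteIndex ∧ g ∉ N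

/-- Virtually cyclic subgroups are separable. -/
def S_SEP : Prop :=
  ∀ (G R : Type) [Group G] [Group R], VRC G → ∀ φ : R →* G, VirtCyc R →
    ∀ x : G, (∀ r, φ r ≠ x) →
      ∃ N : Subgroup G, N.Normal ∧ N.FiniteIndex ∧ ∀ r, (φ r)⁻¹ * x ∉ N

/-- All sufficiently divisible powers of `r` are cut out by normal subgroups of finite index. -/
def S_DIV : Prop :=
  ∀ (P R : Type) [Group P] [Group R], VRC P → ∀ φ : R →* P, Function.Injective φ →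
    ∀ r : R, (Subgroup.zpowers r).FiniteIndex → ¬ IsOfFinOrder r →
    ∀ P0 : Subgroup P, P0.Normal → P0.FiniteIndex →
      ∃ s : ℕ, 0 < s ∧ ∀ m : ℕ, 0 < m → ∃ P' : Subgroup P, P'.Normal ∧ P'.FiniteIndex ∧
        P' ≤ P0 ∧ ∀ x : R, φ x ∈ P' ↔ x ∈ Subgroup.zpowers (r ^ (s * m))

/-- Compatible normal subgroups of finite index. -/
def S_COMP : Prop :=
  ∀ (P Q R : Type) [Group P] [Group Q] [Group R], VRC P → VRC Q →
    ∀ (φ : R →* P) (ψ : R →* Q), Function.Injective φ → Function.Injective ψ → VirtCyc R →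
    ∀ (P0 : Subgroup P) (Q0 : Subgroup Q), P0.Normal → P0.FiniteIndex → Q0.Normal →
      Q0.FiniteIndex →
      ∃ (P' : Subgroup P) (Q' : Subgroup Q), P'.Normal ∧ P'.FiniteIndex ∧ Q'.Normal ∧
        Q'.FiniteIndex ∧ P' ≤ P0 ∧ Q' ≤ Q0 ∧ (∀ r : R, φ r ∈ P' ↔ ψ r ∈ Q') ∧
        ∃ r0 : R, ∀ r : R, φ r ∈ P' ↔ r ∈ Subgroup.zpowers r0

/-- Equivariant bijections from orbit representatives. -/
def S_GLUE : Prop :=
  ∀ (H E1 E2 I : Type) [Group H] (α1 : H →* Equiv.Perm E1) (α2 : H →* Equiv.Perm E2)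
    (e1 : I → E1) (e2 : I → E2),
    (∀ e, ∃ i h, α1 h (e1 i) = e) → (∀ e, ∃ i h, α2 h (e2 i) = e) →
    (∀ i j h, α1 h (e1 i) = e1 j → i = j) → (∀ i j h, α2 h (e2 i) = e2 j → i = j) →
    (∀ i h, α1 h (e1 i) = e1 i ↔ α2 h (e2 i) = e2 i) →
    ∃ f : E1 ≃ E2, (∀ h e, f (α1 h e) = α2 h (f e)) ∧ ∀ i, f (e1 i) = e2 i

/-- The matching lemma. -/
def S_MATCH : Prop :=
  ∀ (P Q R : Type) [Group P] [Group Q] [Group R] (φ : R →* P) (ψ : R →* Q)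
    (P' : Subgroup P) (Q' : Subgroup Q), P'.Normal → Q'.Normal →
    (∀ r, φ r ∈ P' ↔ ψ r ∈ Q') →
    ∀ (C1 C2 I : Type) (χ : C1 → (P' →* Zz)) (θ : C2 → (Q' →* Zz))
      (c : I → C1) (p : I → P) (d : I → C2) (q : I → Q) (z : I → Zz),
      (∀ (a : C1) (x : P), ∃ i, c i = a ∧ ∃ r, ∃ n ∈ P', x = φ r * p i * n) →
      (∀ (a : C2) (x : Q), ∃ i, d i = a ∧ ∃ r, ∃ n ∈ Q', x = ψ r * q i * n) →
      (∀ i j r, ∀ n ∈ P', c i = c j → p j = φ r * p i * n → i = j) →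
      (∀ i j r, ∀ n ∈ Q', d i = d j → q j = ψ r * q i * n → i = j) →
      (∀ i r (h1 : (p i)⁻¹ * φ r * p i ∈ P') (h2 : (q i)⁻¹ * ψ r * q i ∈ Q'),
        χ (c i) ⟨_, h1⟩ = θ (d i) ⟨_, h2⟩) →
      ∃ f : ((a : C1) × ((P × Zz) ⧸ Gr P' (χ a))) ≃ ((a : C2) × ((Q × Zz) ⧸ Gr Q' (θ a))),
        (∀ (r : R) (w : Zz) e, f ((φ r, w) • e) = (ψ r, w) • f e) ∧
        ∀ i, f ⟨c i, QuotientGroup.mk (p i, 1)⟩ = ⟨d i, QuotientGroup.mk (q i, z i)⟩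

/-- The action of the amalgam. -/
def S_ACT : Prop :=
  ∀ (P Q R : Type) [Group P] [Group Q] [Group R] (φ : R →* P) (ψ : R →* Q)
    (E1 E2 : Type) [MulAction (P × Zz) E1] [MulAction (Q × Zz) E2] (f : E1 ≃ E2),
    (∀ (r : R) (w : Zz) e, f ((φ r, w) • e) = (ψ r, w) • f e) →
    ∃ (Φ : Amal φ ψ →* Equiv.Perm E1) (T : Zz →* Equiv.Perm E1),
      (∀ g z e, Φ g (T z e) = T z (Φ g e)) ∧
      (∀ p e, Φ (il φ ψ p) e = ((p, 1) : P × Zz) • e) ∧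
      (∀ q e, f (Φ (ir φ ψ q) e) = ((q, 1) : Q × Zz) • f e) ∧
      (∀ z e, T z e = ((1, z) : P × Zz) • e)

/-- Normal forms up to conjugacy. -/
def S_NF : Prop :=
  ∀ (P Q R : Type) [Group P] [Group Q] [Group R] (φ : R →* P) (ψ : R →* Q) (g : Amal φ ψ),
    (∃ p, IsConj g (il φ ψ p)) ∨ (∃ q, IsConj g (ir φ ψ q)) ∨
    ∃ (k : ℕ) (x : Fin (k + 1) → P) (y : Fin (k + 1) → Q),
      (∀ i r, φ r ≠ x i) ∧ (∀ i r, ψ r ≠ y i) ∧
      IsConj g (List.ofFn fun i => ir φ ψ (y i) * il φ ψ (x i)).prod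

/-- Transport under isomorphisms and conjugation. -/
def S_ISO : Prop :=
  ∀ (G G' : Type) [Group G] [Group G'] (e : G ≃* G') (g : G) (g' : G'), IsConj (e g) g' →
    IsVR (Subgroup.zpowers g) → IsVR (Subgroup.zpowers g')

/-- The symmetry of the amalgam. -/
def S_SYM : Prop :=
  ∀ (P Q R : Type) [Group P] [Group Q] [Group R] (φ : R →* P) (ψ : R →* Q),
    ∃ e : Amal φ ψ ≃* Amal ψ φ, (∀ p, e (il φ ψ p) = ir ψ φ p) ∧ ∀ q, e (ir φ ψ q) = il ψ φ q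

/-- Elements of the factors. -/
def S_ELL : Prop :=
  ∀ (P Q R : Type) [Group P] [Group Q] [Group R], VRC P → VRC Q →
    ∀ (φ : R →* P) (ψ : R →* Q), Function.Injective φ → Function.Injective ψ → VirtCyc R →
      ∀ p : P, IsVR (Subgroup.zpowers (il φ ψ p))

/-- Cyclically reduced words. -/
def S_HYP : Prop :=
  ∀ (P Q R : Type) [Group P] [Group Q] [Group R], VRC P → VRC Q →
    ∀ (φ : R →* P) (ψ : R →* Q), Function.Injective φ → Function.Injective ψ → VirtCyc R →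
      ∀ (k : ℕ) (x : Fin (k + 1) → P) (y : Fin (k + 1) → Q),
      (∀ i r, φ r ≠ x i) → (∀ i r, ψ r ≠ y i) →
      IsVR (Subgroup.zpowers (List.ofFn fun i => ir φ ψ (y i) * il φ ψ (x i)).prod)

/-- The theorem. -/
def S_MAIN : Prop :=
  ∀ (P Q R : Type) [Group P] [Group Q] [Group R], VRC P → VRC Q →
    ∀ (φ : R →* P) (ψ : R →* Q), Function.Injective φ → Function.Injective ψ → VirtCyc R →
      VRC (Amal φ ψ)

theorem main_of (h1 : S_NF) (h2 : S_ISO) (h3 : S_SYM) (h4 : S_ELL) (h5 : S_HYP) : S_MAIN := by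
  intro P Q R _ _ _ hP hQ φ ψ hφ hψ hR g
  rcases h1 P Q R φ ψ g with ⟨p, hp⟩ | ⟨q, hq⟩ | ⟨k, x, y, hx, hy, hk⟩
  · exact h2 _ _ (MulEquiv.refl _) _ _ (IsConj.symm hp) (h4 P Q R hP hQ φ ψ hφ hψ hR p)
  · obtain ⟨e, he1, he2⟩ := h3 Q P R ψ φ
    refine h2 _ _ e (il ψ φ q) g ?_ (h4 Q P R hQ hP ψ φ hψ hφ hR q)
    rw [he1]
    exact hq.symm
  · exact h2 _ _ (MulEquiv.refl _) _ _ (IsConj.symm hk) (h5 P Q R hP hQ φ ψ hφ hψ hR k x y hx hy)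

end Pool.Agent.Y35.VR
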