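import Mathlib
import Pool.Agent.Y35.VR.Stm

set_option autoImplicit false

namespace Pool.Agent.Y35.VR

section
variable {P Q R : Type} [Group P] [Group Q] [Group R] (φ : R →* P) (ψ : R →* Q)

theorem il_eq_ir (r : R) : il φ ψ (φ r) = ir φ ψ (ψ r) := by
  change (QuotientGroup.mk (Monoid.Coprod.inl (φ r)) : Amal φ ψ) =
    QuotientGroup.mk (Monoid.Coprod.inr (ψ r))
  have h : (Monoid.Coprod.inl (φ r) * (Monoid.Coprod.inr (ψ r))⁻¹ : Monoid.Coprod P Q) ∈
      amalKer φ ψ := Subgroup.subset_normalClosure ⟨r, rfl⟩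
  rw [QuotientGroup.eq]
  have h2 := (inferInstance : (amalKer φ ψ).Normal).conj_mem _
    ((amalKer φ ψ).inv_mem h) (Monoid.Coprod.inl (φ r))⁻¹
  have e : (Monoid.Coprod.inl (φ r) : Monoid.Coprod P Q)⁻¹ *
      (Monoid.Coprod.inl (φ r) * (Monoid.Coprod.inr (ψ r))⁻¹)⁻¹ *
      (Monoid.Coprod.inl (φ r))⁻¹⁻¹ = (Monoid.Coprod.inl (φ r))⁻¹ * Monoid.Coprod.inr (ψ r) := by
    group
  rw [e] at h2
  exact h2

/-- The universal property. -/
def lift {G : Type} [Group G] (a : P →* G) (b : Q →* G) (h : ∀ r, a (φ r) = b (ψ r)) :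
    Amal φ ψ →* G :=
  QuotientGroup.lift (amalKer φ ψ) (Monoid.Coprod.lift a b) (by
    have hle : amalKer φ ψ ≤ (Monoid.Coprod.lift a b).ker := by
      unfold amalKer
      apply Subgroup.normalClosure_le_normal
      rintro _ ⟨r, rfl⟩
      change (Monoid.Coprod.lift a b) _ = 1
      rw [map_mul, map_inv, Monoid.Coprod.lift_apply_inl, Monoid.Coprod.lift_apply_inr, h,
        mul_inv_cancel]
    intro x hx
    exact hle hx)

theorem lift_il {G : Type} [Group G] (a : P →* G) (b : Q →* G) (h : ∀ r, a (φ r) = b (ψ r))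
    (p : P) : lift φ ψ a b h (il φ ψ p) = a p := by
  change (Monoid.Coprod.lift a b) (Monoid.Coprod.inl p) = a p
  rw [Monoid.Coprod.lift_apply_inl]

theorem lift_ir {G : Type} [Group G] (a : P →* G) (b : Q →* G) (h : ∀ r, a (φ r) = b (ψ r))
    (q : Q) : lift φ ψ a b h (ir φ ψ q) = b q := by
  change (Monoid.Coprod.lift a b) (Monoid.Coprod.inr q) = b q
  rw [Monoid.Coprod.lift_apply_inr]

/-- Induction principle. -/
theorem amal_induction {C : Amal φ ψ → Prop} (h1 : ∀ p, C (il φ ψ p)) (h2 : ∀ q, C (ir φ ψ q))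
    (h3 : ∀ x y, C x → C y → C (x * y)) (g : Amal φ ψ) : C g := by
  obtain ⟨x, rfl⟩ := QuotientGroup.mk_surjective g
  induction x using Monoid.Coprod.induction_on with
  | inl p => exact h1 p
  | inr q => exact h2 q
  | mul x y hx hy => exact h3 _ _ hx hy

theorem hom_ext {G : Type} [Group G] (a b : Amal φ ψ →* G)
    (h1 : ∀ p, a (il φ ψ p) = b (il φ ψ p)) (h2 : ∀ q, a (ir φ ψ q) = b (ir φ ψ q)) : a = b := by
  refine MonoidHom.ext fun g => ?_
  refine amal_induction φ ψ (C := fun g => a g = b g) h1 h2 ?_ g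
  intro x y hx hy
  rw [map_mul, map_mul, hx, hy]

end

theorem t_sym : S_SYM := by
  intro P Q R _ _ _ φ ψ
  let a : Amal φ ψ →* Amal ψ φ := lift φ ψ (ir ψ φ) (il ψ φ) (fun r => (il_eq_ir ψ φ r).symm)
  let b : Amal ψ φ →* Amal φ ψ := lift ψ φ (ir φ ψ) (il φ ψ) (fun r => (il_eq_ir φ ψ r).symm)
  have a1 : ∀ p, a (il φ ψ p) = ir ψ φ p := fun p => lift_il φ ψ (ir ψ φ) (il ψ φ) _ p
  have a2 : ∀ q, a (ir φ ψ q) = il ψ φ q := fun q => lift_ir φ ψ (ir ψ φ) (il ψ φ) _ q
  have b1 : ∀ p, b (il ψ φ p) = ir φ ψ p := fun p => lift_il ψ φ (ir φ ψ) (il φ ψ) _ p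
  have b2 : ∀ q, b (ir ψ φ q) = il φ ψ q := fun q => lift_ir ψ φ (ir φ ψ) (il φ ψ) _ q
  have hab : b.comp a = MonoidHom.id _ := by
    apply hom_ext
    · intro p
      rw [MonoidHom.comp_apply, a1, b2, MonoidHom.id_apply]
    · intro q
      rw [MonoidHom.comp_apply, a2, b1, MonoidHom.id_apply]
  have hba : a.comp b = MonoidHom.id _ := by
    apply hom_ext
    · intro p
      rw [MonoidHom.comp_apply, b1, a2, MonoidHom.id_apply]
    · intro q
      rw [MonoidHom.comp_apply, b2, a1, MonoidHom.id_apply]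
  exact ⟨MonoidHom.toMulEquiv a b hab hba, a1, a2⟩

theorem t_act : S_ACT := by
  intro P Q R _ _ _ φ ψ E1 E2 _ _ f hf
  let A : P →* Equiv.Perm E1 := (MulAction.toPermHom (P × Zz) E1).comp (MonoidHom.inl P Zz)
  let B0 : Q →* Equiv.Perm E2 := (MulAction.toPermHom (Q × Zz) E2).comp (MonoidHom.inl Q Zz)
  let B : Q →* Equiv.Perm E1 := (f.symm.permCongrHom.toMonoidHom).comp B0
  have hA : ∀ p e, A p e = ((p, 1) : P × Zz) • e := fun p e => rfl
  have hB : ∀ q e, f (B q e) = ((q, 1) : Q × Zz) • f e := by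
    intro q e
    change f (f.symm (B0 q (f.symm.symm e))) = _
    rw [Equiv.apply_symm_apply]
    rfl
  have hAB : ∀ r, A (φ r) = B (ψ r) := by
    intro r
    ext e
    apply f.injective
    rw [hA, hf, hB]
  let Φ := lift φ ψ A B hAB
  let T : Zz →* Equiv.Perm E1 := (MulAction.toPermHom (P × Zz) E1).comp (MonoidHom.inr P Zz)
  have hT : ∀ z e, T z e = ((1, z) : P × Zz) • e := fun z e => rfl
  have hTf : ∀ z e, f (T z e) = ((1, z) : Q × Zz) • f e := by
    intro z e
    rw [hT]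
    have := hf 1 z e
    rw [map_one, map_one] at this
    exact this
  refine ⟨Φ, T, ?_, ?_, ?_, hT⟩
  · intro g
    refine amal_induction φ ψ (C := fun g => ∀ z e, Φ g (T z e) = T z (Φ g e)) ?_ ?_ ?_ g
    · intro p z e
      have h : Φ (il φ ψ p) = A p := lift_il φ ψ A B hAB p
      rw [h, hA, hA, hT, hT, smul_smul, smul_smul]
      simp
    · intro q z e
      have h : Φ (ir φ ψ q) = B q := lift_ir φ ψ A B hAB q
      rw [h]
      apply f.injective
      rw [hB, hTf, hTf, hB, smul_smul, smul_smul]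
      simp
    · intro x y hx hy z e
      rw [map_mul, Equiv.Perm.mul_apply, Equiv.Perm.mul_apply, hy, hx]
  · intro p e
    have h : Φ (il φ ψ p) = A p := lift_il φ ψ A B hAB p
    rw [h, hA]
  · intro q e
    have h : Φ (ir φ ψ q) = B q := lift_ir φ ψ A B hAB q
    rw [h, hB]

end Pool.Agent.Y35.VR
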