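import Mathlib
import Pool.Agent.Y35.VR.Stm

set_option autoImplicit false

namespace Pool.Agent.Y35.VR

/-- Double cosets of the image of `φ` and `P'`. -/
def dcSetoid {P R : Type} [Group P] [Group R] (φ : R →* P) (P' : Subgroup P) (hP : P'.Normal) :
    Setoid P where
  r x y := ∃ r, ∃ n ∈ P', y = φ r * x * n
  iseqv := by
    refine ⟨?_, ?_, ?_⟩
    · intro x
      exact ⟨1, 1, P'.one_mem, by simp⟩
    · rintro x y ⟨r, n, hn, rfl⟩
      refine ⟨r⁻¹, n⁻¹, P'.inv_mem hn, ?_⟩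
      rw [map_inv]
      group
    · rintro x y z ⟨r, n, hn, rfl⟩ ⟨r', n', hn', rfl⟩
      refine ⟨r' * r, n * n', P'.mul_mem hn hn', ?_⟩
      rw [map_mul]
      group

/-- The set of double cosets. -/
def DC {P R : Type} [Group P] [Group R] (φ : R →* P) (P' : Subgroup P) (hP : P'.Normal) : Type :=
  Quotient (dcSetoid φ P' hP)

section
variable {P R : Type} [Group P] [Group R] (φ : R →* P) (P' : Subgroup P) (hP : P'.Normal)

/-- The class of an element. -/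
def dc (x : P) : DC φ P' hP := Quotient.mk (dcSetoid φ P' hP) x

theorem dc_eq {x y : P} : dc φ P' hP x = dc φ P' hP y ↔ ∃ r, ∃ n ∈ P', y = φ r * x * n :=
  ⟨fun h => Quotient.exact h, fun h => Quotient.sound h⟩

theorem dc_surj (a : DC φ P' hP) : ∃ x, dc φ P' hP x = a :=
  Quotient.exists_rep a

theorem dc_finite (hf : P'.FiniteIndex) : Finite (DC φ P' hP) := by
  have : Finite (P ⧸ P') := Subgroup.finite_quotient_of_finiteIndex
  refine Finite.of_surjective (α := P ⧸ P')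
    (Quotient.lift (s := QuotientGroup.leftRel P') (fun x => dc φ P' hP x) ?_) ?_
  · intro x y h
    have h' : x⁻¹ * y ∈ P' := QuotientGroup.leftRel_apply.1 h
    rw [dc_eq]
    exact ⟨1, x⁻¹ * y, h', by simp⟩
  · intro a
    obtain ⟨x, rfl⟩ := dc_surj φ P' hP a
    exact ⟨QuotientGroup.mk x, rfl⟩
end

section
variable {P : Type} [Group P] (P' : Subgroup P) {C : Type} (χ : C → (P' →* Zz))

theorem mem_Gr (χ : P' →* Zz) (w : P × Zz) : w ∈ Gr P' χ ↔ ∃ h : w.1 ∈ P', w.2 = χ ⟨w.1, h⟩ := by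
  constructor
  · rintro ⟨n, rfl⟩
    exact ⟨n.2, rfl⟩
  · rintro ⟨h, h2⟩
    exact ⟨⟨w.1, h⟩, Prod.ext rfl h2.symm⟩

/-- The action of `Z` is free. -/
theorem sig_free (z : Zz) (e : (a : C) × ((P × Zz) ⧸ Gr P' (χ a)))
    (h : ((1, z) : P × Zz) • e = e) : z = 1 := by
  obtain ⟨a, b⟩ := e
  obtain ⟨⟨x, w⟩, rfl⟩ := QuotientGroup.mk_surjective b
  have h1 : (QuotientGroup.mk (((1, z) : P × Zz) * (x, w)) : (P × Zz) ⧸ Gr P' (χ a)) =
      QuotientGroup.mk (x, w) := by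
    have := (Sigma.mk.inj_iff.1 h).2
    exact eq_of_heq this
  rw [QuotientGroup.eq, mem_Gr] at h1
  obtain ⟨h2, h3⟩ := h1
  have e1 : ((((1, z) : P × Zz) * (x, w))⁻¹ * (x, w)).1 = 1 := by
    simp
  have e2 : ((((1, z) : P × Zz) * (x, w))⁻¹ * (x, w)).2 = z⁻¹ := by
    simp
  rw [e2] at h3
  have e3 : (⟨((((1, z) : P × Zz) * (x, w))⁻¹ * (x, w)).1, h2⟩ : P') = 1 := Subtype.ext e1
  rw [e3, map_one] at h3
  exact inv_eq_one.1 h3

/-- Equality of points. -/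
theorem sig_eq (a : C) (x y : P) (w z : Zz) :
    ((⟨a, QuotientGroup.mk (x, w)⟩ : (a : C) × ((P × Zz) ⧸ Gr P' (χ a))) =
      ⟨a, QuotientGroup.mk (y, z)⟩) ↔ ∃ h : x⁻¹ * y ∈ P', w⁻¹ * z = χ a ⟨x⁻¹ * y, h⟩ := by
  constructor
  · intro h
    have h1 : (QuotientGroup.mk (x, w) : (P × Zz) ⧸ Gr P' (χ a)) = QuotientGroup.mk (y, z) :=
      eq_of_heq (Sigma.mk.inj_iff.1 h).2
    rw [QuotientGroup.eq, mem_Gr] at h1
    exact h1
  · intro h
    have h1 : (QuotientGroup.mk (x, w) : (P × Zz) ⧸ Gr P' (χ a)) = QuotientGroup.mk (y, z) := by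
      rw [QuotientGroup.eq, mem_Gr]
      exact h
    rw [h1]

theorem sig_smul (a : C) (x y : P) (w z : Zz) :
    ((x, w) : P × Zz) • (⟨a, QuotientGroup.mk (y, z)⟩ : (a : C) × ((P × Zz) ⧸ Gr P' (χ a))) =
      ⟨a, QuotientGroup.mk (x * y, w * z)⟩ := rfl

/-- Finitely many orbits of `Z`. -/
theorem sig_fin (hC : Finite C) (hf : P'.FiniteIndex) :
    ∃ s : Finset ((a : C) × ((P × Zz) ⧸ Gr P' (χ a))), ∀ e, ∃ e' ∈ s, ∃ z : Zz,
      ((1, z) : P × Zz) • e' = e := by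
  classical
  have : Finite (P ⧸ P') := Subgroup.finite_quotient_of_finiteIndex
  have : Fintype (P ⧸ P') := Fintype.ofFinite _
  have : Fintype C := Fintype.ofFinite _
  refine ⟨Finset.univ.image (fun b : C × (P ⧸ P') =>
    (⟨b.1, QuotientGroup.mk (b.2.out, 1)⟩ : (a : C) × ((P × Zz) ⧸ Gr P' (χ a)))), ?_⟩
  rintro ⟨a, b⟩
  obtain ⟨⟨x, w⟩, rfl⟩ := QuotientGroup.mk_surjective b
  refine ⟨_, Finset.mem_image_of_mem _ (Finset.mem_univ (a, (QuotientGroup.mk x : P ⧸ P'))), ?_⟩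
  have h : ((QuotientGroup.mk x : P ⧸ P').out)⁻¹ * x ∈ P' := by
    rw [← QuotientGroup.eq]
    exact Quotient.out_eq _
  refine ⟨w * (χ a ⟨_, h⟩)⁻¹, ?_⟩
  rw [sig_smul, sig_eq]
  refine ⟨by simpa using h, ?_⟩
  simp
end

end Pool.Agent.Y35.VR
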