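import Mathlib
import Pool.Agent.Y35.VR.Stm

set_option autoImplicit false

namespace Pool.Agent.Y35.VR

/-- The finite case. -/
theorem comp_fin (hrf : S_RF) (P R : Type) [Group P] [Group R] (hP : VRC P) (φ : R →* P)
    (hφ : Function.Injective φ) (hR : Finite R) (P0 : Subgroup P) (n0 : P0.Normal)
    (f0 : P0.FiniteIndex) : ∃ P' : Subgroup P, P'.Normal ∧ P'.FiniteIndex ∧ P' ≤ P0 ∧
      ∀ r : R, φ r ∈ P' ↔ r = 1 := by
  classical
  have h0 : ∀ r : R, ∃ N : Subgroup P, N.Normal ∧ N.FiniteIndex ∧ (r ≠ 1 → φ r ∉ N) := by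
    intro r
    by_cases h : r = 1
    · exact ⟨⊤, inferInstance, inferInstance, fun h' => absurd h h'⟩
    · have h1 : φ r ≠ 1 := by
        intro h2
        exact h (hφ (by rw [h2, map_one]))
      obtain ⟨N, a, b, c⟩ := hrf P hP _ h1
      exact ⟨N, a, b, fun _ => c⟩
  choose N hN1 hN2 hN3 using h0
  have p1 : (⨅ i, N i).FiniteIndex := Subgroup.finiteIndex_iInf hN2
  have p2 : (⨅ i, N i).Normal := Subgroup.normal_iInf_normal hN1
  refine ⟨P0 ⊓ ⨅ i, N i, inferInstance, inferInstance, inf_le_left, ?_⟩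
  intro r
  constructor
  · intro h
    by_contra h1
    exact hN3 r h1 ((iInf_le N r) h.2)
  · rintro rfl
    rw [map_one]
    exact Subgroup.one_mem _

theorem t_comp (hdiv : S_DIV) (hrf : S_RF) : S_COMP := by
  intro P Q R _ _ _ hP hQ φ ψ hφ hψ hR P0 Q0 n1 f1 n2 f2
  obtain ⟨r, hr⟩ := hR
  by_cases hfin : IsOfFinOrder r
  · have hfz : Finite (Subgroup.zpowers r) := (finite_zpowers.2 hfin).to_subtype
    have hq : Finite (R ⧸ Subgroup.zpowers r) := Subgroup.finite_quotient_of_finiteIndex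
    have hR : Finite R := by
      have e := Subgroup.groupEquivQuotientProdSubgroup (s := Subgroup.zpowers r)
      exact Finite.of_equiv _ e.symm
    obtain ⟨P', a1, a2, a3, a4⟩ := comp_fin hrf P R hP φ hφ hR P0 n1 f1
    obtain ⟨Q', b1, b2, b3, b4⟩ := comp_fin hrf Q R hQ ψ hψ hR Q0 n2 f2
    refine ⟨P', Q', a1, a2, b1, b2, a3, b3, fun r => (a4 r).trans (b4 r).symm, 1, ?_⟩
    intro x
    rw [a4, Subgroup.zpowers_one_eq_bot, Subgroup.mem_bot]
  · obtain ⟨s1, hs1, h1⟩ := hdiv P R hP φ hφ r hr hfin P0 n1 f1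
    obtain ⟨s2, hs2, h2⟩ := hdiv Q R hQ ψ hψ r hr hfin Q0 n2 f2
    obtain ⟨P', a1, a2, a3, a4⟩ := h1 s2 hs2
    obtain ⟨Q', b1, b2, b3, b4⟩ := h2 s1 hs1
    refine ⟨P', Q', a1, a2, b1, b2, a3, b3, ?_, r ^ (s1 * s2), a4⟩
    intro x
    rw [a4, b4, mul_comm s2 s1]

end Pool.Agent.Y35.VR
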