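import Mathlib
import Pool.Agent.Y35.VR.Base

set_option autoImplicit false

namespace Pool.Agent.Y35.VR

theorem zz_zpow_ne {z : Zz} (hz : z ≠ 1) {n : ℤ} (hn : n ≠ 0) : z ^ n ≠ 1 := by
  intro h
  have h1 : n * Multiplicative.toAdd z = 0 := by
    have := congrArg Multiplicative.toAdd h
    simpa [toAdd_zpow] using this
  rcases mul_eq_zero.1 h1 with h2 | h2
  · exact hn h2
  · exact hz (Multiplicative.toAdd.injective h2)

theorem zz_pow_ne {z : Zz} (hz : z ≠ 1) {n : ℕ} (hn : n ≠ 0) : z ^ n ≠ 1 := by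
  have := zz_zpow_ne hz (n := (n : ℤ)) (by exact_mod_cast hn)
  rwa [zpow_natCast] at this

theorem vc_comm (R : Type) [Group R] (hR : VirtCyc R) (u v : R) (hu : ¬ IsOfFinOrder u)
    (hv : ¬ IsOfFinOrder v) : ∃ (a : ℕ) (b : ℤ), 0 < a ∧ b ≠ 0 ∧ u ^ a = v ^ b := by
  obtain ⟨r, hr⟩ := hR
  have key : ∀ w : R, ¬ IsOfFinOrder w → ∃ (s : ℕ) (i : ℤ), 0 < s ∧ i ≠ 0 ∧ w ^ s = r ^ i := by
    intro w hw
    obtain ⟨s, hs, hmem⟩ := Subgroup.exists_pow_mem_of_index_ne_zero hr.index_ne_zero w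
    obtain ⟨i, hi⟩ := Subgroup.mem_zpowers_iff.1 hmem.2
    refine ⟨s, i, hs, ?_, hi.symm⟩
    rintro rfl
    apply hw
    rw [isOfFinOrder_iff_pow_eq_one]
    exact ⟨s, hs, by rw [← hi, zpow_zero]⟩
  obtain ⟨s, i, hs, hi, e1⟩ := key u hu
  obtain ⟨t, j, ht, hj, e2⟩ := key v hv
  refine ⟨s * j.natAbs, (t : ℤ) * i * j.sign, ?_, ?_, ?_⟩
  · exact Nat.mul_pos hs (Int.natAbs_pos.2 hj)
  · have : j.sign ≠ 0 := by
      intro h
      exact hj (Int.sign_eq_zero_iff_zero.1 h)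
    have ht' : (t : ℤ) ≠ 0 := by exact_mod_cast ht.ne'
    exact mul_ne_zero (mul_ne_zero ht' hi) this
  · rw [pow_mul, e1, zpow_mul, zpow_mul, zpow_natCast, e2, ← zpow_natCast, ← zpow_mul,
      ← zpow_mul, ← zpow_mul]
    congr 1
    have : ((j.natAbs : ℕ) : ℤ) = j * j.sign := by
      rw [Int.mul_sign_self]
    rw [this]
    ring

/-- A character of a normal subgroup of finite index detecting all elements of infinite order
of `R`. -/
theorem exists_char (hinf : S_INF) (Q R : Type) [Group Q] [Group R] (hQ : VRC Q) (ψ : R →* Q)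
    (hψ : Function.Injective ψ) (hR : VirtCyc R) :
    ∃ (M : Subgroup Q) (θ : M →* Zz), M.Normal ∧ M.FiniteIndex ∧
      ∀ r0 : R, ¬ IsOfFinOrder r0 → ∀ h : ψ r0 ∈ M, θ ⟨ψ r0, h⟩ ≠ 1 := by
  by_cases hx : ∃ v : R, ¬ IsOfFinOrder v
  · obtain ⟨v, hv⟩ := hx
    have hv' : ¬ IsOfFinOrder (ψ v) := by
      intro h
      exact hv (hψ.isOfFinOrder_iff.1 h)
    obtain ⟨M, θ, h1, h2, m, hm, h3, h4⟩ := hinf Q hQ (ψ v) hv'
    refine ⟨M, θ, h1, h2, ?_⟩
    intro u hu h hθ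
    obtain ⟨a, b, ha, hb, hab⟩ := vc_comm R hR u v hu hv
    have e1 : (⟨ψ u, h⟩ : M) ^ (a * m) = (⟨ψ v ^ m, hm⟩ : M) ^ b := by
      apply Subtype.ext
      have : ψ u ^ (a * m) = (ψ v ^ m) ^ b := by
        rw [pow_mul, ← map_pow ψ u a, hab, map_zpow, ← zpow_natCast, ← zpow_natCast,
          ← zpow_mul, ← zpow_mul, mul_comm]
      simpa using this
    have e2 := congrArg θ e1
    rw [map_pow, hθ, one_pow, map_zpow] at e2
    exact zz_zpow_ne h4 hb e2.symm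
  · refine ⟨⊤, 1, inferInstance, inferInstance, ?_⟩
    intro r0 hr0
    exact absurd ⟨r0, hr0⟩ hx

/-- The labelled matching. -/
theorem core (hmatch : S_MATCH) {P Q R : Type} [Group P] [Group Q] [Group R] (φ : R →* P)
    (ψ : R →* Q) (P' : Subgroup P) (Q' : Subgroup Q) (nP : P'.Normal) (nQ : Q'.Normal)
    (hPQ : ∀ r, φ r ∈ P' ↔ ψ r ∈ Q') (r0 : R) (hr0 : ∀ r, φ r ∈ P' ↔ r ∈ Subgroup.zpowers r0)
    (χ : P' →* Zz) (θ : Q' →* Zz) (ox : DC φ P' nP → P) (oy : DC ψ Q' nQ → Q)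
    (hox : ∀ a, dc φ P' nP (ox a) = a) (hoy : ∀ a, dc ψ Q' nQ (oy a) = a)
    (α : DC φ P' nP → ℤ) (β : DC ψ Q' nQ → ℤ)
    (hab : ∀ a b (h1 : (ox a)⁻¹ * φ r0 * ox a ∈ P') (h2 : (oy b)⁻¹ * ψ r0 * oy b ∈ Q'),
      (χ ⟨_, h1⟩) ^ β b = (θ ⟨_, h2⟩) ^ α a) :
    ∃ f : ((b : DC ψ Q' nQ) × ((P × Zz) ⧸ Gr P' (χ ^ β b))) ≃
        ((a : DC φ P' nP) × ((Q × Zz) ⧸ Gr Q' (θ ^ α a))),
      ∀ (r : R) (w : Zz) e, f ((φ r, w) • e) = (ψ r, w) • f e := by
  have hr0P : φ r0 ∈ P' := (hr0 r0).2 (Subgroup.mem_zpowers r0)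
  have hr0Q : ψ r0 ∈ Q' := (hPQ r0).1 hr0P
  obtain ⟨f, hf, _⟩ := hmatch P Q R φ ψ P' Q' nP nQ hPQ (DC ψ Q' nQ) (DC φ P' nP)
    (DC φ P' nP × DC ψ Q' nQ) (fun b => χ ^ β b) (fun a => θ ^ α a)
    (fun i => i.2) (fun i => ox i.1) (fun i => i.1) (fun i => oy i.2) (fun _ => 1)
    (by
      intro b x
      exact ⟨(dc φ P' nP x, b), rfl, (dc_eq φ P' nP).1 (hox _)⟩)
    (by
      intro a x
      exact ⟨(a, dc ψ Q' nQ x), rfl, (dc_eq ψ Q' nQ).1 (hoy _)⟩)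
    (by
      rintro ⟨a, b⟩ ⟨a', b'⟩ r n hn h1 h2
      have h3 := (dc_eq φ P' nP).2 ⟨r, n, hn, h2⟩
      rw [hox, hox] at h3
      exact Prod.ext h3 h1)
    (by
      rintro ⟨a, b⟩ ⟨a', b'⟩ r n hn h1 h2
      have h3 := (dc_eq ψ Q' nQ).2 ⟨r, n, hn, h2⟩
      rw [hoy, hoy] at h3
      exact Prod.ext h1 h3)
    (by
      rintro ⟨a, b⟩ r h1 h2
      dsimp only at h1 h2 ⊢
      have hr : φ r ∈ P' := by
        have := nP.conj_mem _ h1 (ox a)
        have e : ox a * ((ox a)⁻¹ * φ r * ox a) * (ox a)⁻¹ = φ r := by group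
        rwa [e] at this
      obtain ⟨j, rfl⟩ := Subgroup.mem_zpowers_iff.1 ((hr0 r).1 hr)
      have k1 : (ox a)⁻¹ * φ r0 * ox a ∈ P' := by
        have := nP.conj_mem _ hr0P (ox a)⁻¹
        rwa [inv_inv] at this
      have k2 : (oy b)⁻¹ * ψ r0 * oy b ∈ Q' := by
        have := nQ.conj_mem _ hr0Q (oy b)⁻¹
        rwa [inv_inv] at this
      have e1 : (⟨(ox a)⁻¹ * φ (r0 ^ j) * ox a, h1⟩ : P') = (⟨_, k1⟩ : P') ^ j := by
        apply Subtype.ext
        have : (ox a)⁻¹ * φ (r0 ^ j) * ox a = ((ox a)⁻¹ * φ r0 * ox a) ^ j := by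
          rw [map_zpow]
          have := conj_zpow (i := j) (a := (ox a)⁻¹) (b := φ r0)
          rw [inv_inv] at this
          exact this.symm
        simpa using this
      have e2 : (⟨(oy b)⁻¹ * ψ (r0 ^ j) * oy b, h2⟩ : Q') = (⟨_, k2⟩ : Q') ^ j := by
        apply Subtype.ext
        have : (oy b)⁻¹ * ψ (r0 ^ j) * oy b = ((oy b)⁻¹ * ψ r0 * oy b) ^ j := by
          rw [map_zpow]
          have := conj_zpow (i := j) (a := (oy b)⁻¹) (b := ψ r0)
          rw [inv_inv] at this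
          exact this.symm
        simpa using this
      have e3 : (χ ^ β b) ⟨_, k1⟩ = (θ ^ α a) ⟨_, k2⟩ := hab a b k1 k2
      rw [e1, e2, map_zpow, map_zpow, e3])
  exact ⟨f, hf⟩

theorem t_ell (hcrit : S_CRIT) (hcritf : S_CRITF) (hinf : S_INF) (hrf : S_RF) (hcomp : S_COMP)
    (hmatch : S_MATCH) (hact : S_ACT) : S_ELL := by
  classical
  intro P Q R _ _ _ hP hQ φ ψ hφ hψ hR p
  by_cases hp : IsOfFinOrder p
  · -- finite order
    have h0 : ∀ i : Fin (orderOf p), ∃ N : Subgroup P, N.Normal ∧ N.FiniteIndex ∧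
        (p ^ (i : ℕ) ≠ 1 → p ^ (i : ℕ) ∉ N) := by
      intro i
      by_cases h : p ^ (i : ℕ) = 1
      · exact ⟨⊤, inferInstance, inferInstance, fun h' => absurd h h'⟩
      · obtain ⟨N, a, b, c⟩ := hrf P hP _ h
        exact ⟨N, a, b, fun _ => c⟩
    choose N hN1 hN2 hN3 using h0
    have p1 : (⨅ i, N i).FiniteIndex := Subgroup.finiteIndex_iInf hN2
    have p2 : (⨅ i, N i).Normal := Subgroup.normal_iInf_normal hN1
    obtain ⟨P', Q', nP, fP, nQ, fQ, lP, lQ, hPQ, r0, hr0⟩ :=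
      hcomp P Q R hP hQ φ ψ hφ hψ hR (⨅ i, N i) ⊤ p2 p1 inferInstance inferInstance
    have hpow : ∀ n : ℕ, p ^ n ≠ 1 → p ^ n ∉ P' := by
      intro n hn hmem
      have hpos : 0 < orderOf p := hp.orderOf_pos
      have e : p ^ n = p ^ (n % orderOf p) := (pow_mod_orderOf p n).symm
      have h1 := hN3 ⟨n % orderOf p, Nat.mod_lt _ hpos⟩ (by
        change p ^ (n % orderOf p) ≠ 1
        rw [← e]
        exact hn)
      apply h1
      change p ^ (n % orderOf p) ∈ _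
      rw [← e]
      exact (iInf_le N _) (lP hmem)
    choose ox hox using dc_surj φ P' nP
    choose oy hoy using dc_surj ψ Q' nQ
    obtain ⟨f, hf⟩ := core hmatch φ ψ P' Q' nP nQ hPQ r0 hr0 1 1 ox oy hox hoy (fun _ => 0)
      (fun _ => 0) (by
        intro a b h1 h2
        rw [zpow_zero, zpow_zero])
    obtain ⟨Φ, T, a1, a2, a3, a4⟩ := hact P Q R φ ψ _ _ f hf
    have hfin := sig_fin P' (C := DC ψ Q' nQ) (fun _ => ((1 : P' →* Zz) ^ (0 : ℤ)))
      (dc_finite ψ Q' nQ fQ) fP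
    refine hcritf _ _ Φ T a1 ?_ _ ?_ ((il φ ψ).isOfFinOrder hp)
    · obtain ⟨s, hs⟩ := hfin
      refine ⟨s, fun b => ?_⟩
      obtain ⟨b', hb', z, hz⟩ := hs b
      exact ⟨b', hb', z, by rw [a4]; exact hz⟩
    · intro n hn
      have hn' : p ^ n ≠ 1 := by
        intro h
        apply hn
        rw [← map_pow, h, map_one]
      refine ⟨⟨dc ψ Q' nQ 1, QuotientGroup.mk (1, 1)⟩, ?_⟩
      intro z h
      rw [← map_pow, a2, a4] at h
      obtain ⟨h1, _⟩ := (sig_eq P' (C := DC ψ Q' nQ) (fun _ => ((1 : P' →* Zz) ^ (0 : ℤ)))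
        (dc ψ Q' nQ 1) (p ^ n * 1) (1 * 1) (1 * 1) (z * 1)).1 h
      apply hpow n hn'
      have := P'.inv_mem h1
      simpa using this
  · -- infinite order
    obtain ⟨N, χ0, nN, fN, m, hm, hm0, hχ0⟩ := hinf P hP p hp
    obtain ⟨M, θ0, nM, fM, hθ0⟩ := exists_char hinf Q R hQ ψ hψ hR
    obtain ⟨P', Q', nP, fP, nQ, fQ, lP, lQ, hPQ, r0, hr0⟩ :=
      hcomp P Q R hP hQ φ ψ hφ hψ hR N M nN fN nM fM
    have hr0P : φ r0 ∈ P' := (hr0 r0).2 (Subgroup.mem_zpowers r0)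
    have hr0Q : ψ r0 ∈ Q' := (hPQ r0).1 hr0P
    let χ : P' →* Zz := χ0.comp (Subgroup.inclusion lP)
    let θ : Q' →* Zz := θ0.comp (Subgroup.inclusion lQ)
    choose ox hox using dc_surj φ P' nP
    choose oy hoy using dc_surj ψ Q' nQ
    have k1 : ∀ a, (ox a)⁻¹ * φ r0 * ox a ∈ P' := by
      intro a
      have := nP.conj_mem _ hr0P (ox a)⁻¹
      rwa [inv_inv] at this
    have k2 : ∀ b, (oy b)⁻¹ * ψ r0 * oy b ∈ Q' := by
      intro b
      have := nQ.conj_mem _ hr0Q (oy b)⁻¹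
      rwa [inv_inv] at this
    -- the labels
    have hlab : ∃ (α : DC φ P' nP → ℤ) (β : DC ψ Q' nQ → ℤ),
        (∀ a b (h1 : (ox a)⁻¹ * φ r0 * ox a ∈ P') (h2 : (oy b)⁻¹ * ψ r0 * oy b ∈ Q'),
          (χ ⟨_, h1⟩) ^ β b = (θ ⟨_, h2⟩) ^ α a) ∧ ∃ b, β b ≠ 0 := by
      by_cases hz : ∀ a, χ ⟨_, k1 a⟩ = 1
      · refine ⟨fun _ => 0, fun _ => 1, ?_, dc ψ Q' nQ 1, one_ne_zero⟩
        intro a b h1 h2
        rw [zpow_zero, hz a, one_zpow]
      · push Not at hz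
        obtain ⟨a0, ha0⟩ := hz
        have hr0inf : ¬ IsOfFinOrder r0 := by
          intro h
          obtain ⟨n, hn, hn1⟩ := isOfFinOrder_iff_pow_eq_one.1 h
          have e : (⟨_, k1 a0⟩ : P') ^ n = 1 := by
            apply Subtype.ext
            have : ((ox a0)⁻¹ * φ r0 * ox a0) ^ n = 1 := by
              have h3 := conj_pow (i := n) (a := (ox a0)⁻¹) (b := φ r0)
              rw [inv_inv] at h3
              rw [h3, ← map_pow, hn1, map_one]
              group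
            simpa using this
          have e2 := congrArg χ e
          rw [map_pow, map_one] at e2
          exact zz_pow_ne ha0 hn.ne' e2
        refine ⟨fun a => Multiplicative.toAdd (χ ⟨_, k1 a⟩),
          fun b => Multiplicative.toAdd (θ ⟨_, k2 b⟩), ?_, dc ψ Q' nQ 1, ?_⟩
        · intro a b h1 h2
          apply Multiplicative.toAdd.injective
          rw [toAdd_zpow, toAdd_zpow, smul_eq_mul, smul_eq_mul, mul_comm]
        · -- the label at the trivial coset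
          obtain ⟨r, n, hn, e⟩ := (dc_eq ψ Q' nQ).1 (hoy (dc ψ Q' nQ 1)).symm
          intro h0
          have h1 : θ ⟨_, k2 (dc ψ Q' nQ 1)⟩ = 1 := Multiplicative.toAdd.injective h0
          have e1 : (oy (dc ψ Q' nQ 1))⁻¹ * ψ r0 * oy (dc ψ Q' nQ 1) =
              n⁻¹ * ψ (r⁻¹ * r0 * r) * n := by
            rw [e, map_mul, map_mul, map_inv]
            group
          have hmem : ψ (r⁻¹ * r0 * r) ∈ Q' := by
            have := nQ.conj_mem _ hr0Q (ψ r)⁻¹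
            rw [inv_inv] at this
            rwa [map_mul, map_mul, map_inv]
          have e2 : (⟨_, k2 (dc ψ Q' nQ 1)⟩ : Q') =
              (⟨n, hn⟩ : Q')⁻¹ * ⟨_, hmem⟩ * ⟨n, hn⟩ := Subtype.ext e1
          rw [e2, map_mul, map_mul, map_inv, mul_comm, mul_inv_cancel_left] at h1
          have hinf' : ¬ IsOfFinOrder (r⁻¹ * r0 * r) := by
            intro h
            apply hr0inf
            have hc : IsConj (r⁻¹ * r0 * r) r0 := by
              rw [isConj_iff]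
              exact ⟨r, by group⟩
            exact (isOfFinOrder_iff_pow_eq_one.2 (by
              obtain ⟨n', hn', hn1'⟩ := isOfFinOrder_iff_pow_eq_one.1 h
              refine ⟨n', hn', ?_⟩
              have h3 := conj_pow (i := n') (a := r⁻¹) (b := r0)
              rw [inv_inv] at h3
              rw [h3] at hn1'
              have h4 : r0 ^ n' = r * (r⁻¹ * r0 ^ n' * r) * r⁻¹ := by group
              rw [h4, hn1']
              group))
          exact hθ0 _ hinf' (lQ hmem) h1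
    obtain ⟨α, β, hαβ, b0, hb0⟩ := hlab
    obtain ⟨f, hf⟩ := core hmatch φ ψ P' Q' nP nQ hPQ r0 hr0 χ θ ox oy hox hoy α β hαβ
    obtain ⟨Φ, T, a1, a2, a3, a4⟩ := hact P Q R φ ψ _ _ f hf
    have hfin := sig_fin P' (C := DC ψ Q' nQ) (fun b => (χ ^ β b))
      (dc_finite ψ Q' nQ fQ) fP
    -- a power of `p ^ m` in `P'`
    obtain ⟨t, ht, htm⟩ := Subgroup.exists_pow_mem_of_index_ne_zero fP.index_ne_zero (p ^ m)
    have htm' : (p ^ m) ^ t ∈ P' := htm.2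
    have hχt : χ ⟨_, htm'⟩ ≠ 1 := by
      have e : (Subgroup.inclusion lP ⟨_, htm'⟩ : N) = (⟨p ^ m, hm⟩ : N) ^ t := by
        apply Subtype.ext
        simp
      change χ0 (Subgroup.inclusion lP ⟨_, htm'⟩) ≠ 1
      rw [e, map_pow]
      exact zz_pow_ne hχ0 ht.ne'
    refine hcrit _ _ Φ T a1 ?_ ?_ _ (m * t) ⟨b0, QuotientGroup.mk (1, 1)⟩
      ((χ ⟨_, htm'⟩) ^ β b0)⁻¹ ?_ ?_
    · intro z b hb
      rw [a4] at hb
      exact sig_free P' _ z b hb
    · obtain ⟨s, hs⟩ := hfin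
      refine ⟨s, fun b => ?_⟩
      obtain ⟨b', hb', z, hz⟩ := hs b
      exact ⟨b', hb', z, by rw [a4]; exact hz⟩
    · rw [← map_pow, a2, a4]
      symm
      refine (sig_eq P' (fun b => (χ ^ β b)) b0 (1 * 1) (p ^ (m * t) * 1)
        (((χ ⟨_, htm'⟩) ^ β b0)⁻¹ * 1) (1 * 1)).2 ?_
      have hmem : (1 * 1 : P)⁻¹ * (p ^ (m * t) * 1) ∈ P' := by
        rw [pow_mul]
        simpa using htm'
      refine ⟨hmem, ?_⟩
      have e : (⟨_, hmem⟩ : P') = ⟨_, htm'⟩ := by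
        apply Subtype.ext
        change (1 * 1 : P)⁻¹ * (p ^ (m * t) * 1) = (p ^ m) ^ t
        rw [pow_mul]
        simp
      rw [e, mul_one, mul_one, inv_inv, mul_one]
      rfl
    · exact inv_ne_one.2 (zz_zpow_ne hχt hb0)

end Pool.Agent.Y35.VR
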