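import Mathlib
import Pool.Agent.Y35.VR.Base

set_option autoImplicit false

namespace Pool.Agent.Y35.VR

/-- Products along a path. -/
theorem path_prod {E : Type} : ∀ (n : ℕ) (w : Fin n → Equiv.Perm E) (e : Fin (n + 1) → E),
    (∀ i : Fin n, w i (e i.succ) = e i.castSucc) →
    (List.ofFn w).prod (e (Fin.last n)) = e 0 := by
  intro n
  induction n with
  | zero =>
    intro w e _
    simp
  | succ n ih =>
    intro w e h
    rw [List.ofFn_succ, List.prod_cons, Equiv.Perm.mul_apply]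
    have h1 := ih (fun i => w i.succ) (fun i => e i.succ) (by
      intro i
      exact h i.succ)
    have h2 : (Fin.last n).succ = Fin.last (n + 1) := rfl
    rw [h2] at h1
    have h3 : (fun i : Fin (n + 1) => e i.succ) 0 = e (Fin.succ 0) := rfl
    rw [h1]
    exact h 0

/-- A permutation with prescribed values. -/
theorem exists_perm {I J : Type} (hI : Finite I) (u v : J → I) (hu : Function.Injective u)
    (hv : Function.Injective v) : ∃ σ : Equiv.Perm I, ∀ j, σ (u j) = v j := by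
  classical
  have : Fintype I := Fintype.ofFinite I
  have eu := Equiv.ofInjective u hu
  have ev := Equiv.ofInjective v hv
  let e : {x // x ∈ Set.range u} ≃ {x // x ∈ Set.range v} :=
    (Equiv.ofInjective u hu).symm.trans (Equiv.ofInjective v hv)
  refine ⟨e.extendSubtype, ?_⟩
  intro j
  rw [Equiv.extendSubtype_apply_of_mem e (u j) ⟨j, rfl⟩]
  have h1 : (Equiv.ofInjective u hu).symm ⟨u j, ⟨j, rfl⟩⟩ = j := by
    rw [Equiv.symm_apply_eq]
    rfl
  have h2 : e ⟨u j, ⟨j, rfl⟩⟩ = ⟨v j, ⟨j, rfl⟩⟩ := by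
    change (Equiv.ofInjective v hv) ((Equiv.ofInjective u hu).symm ⟨u j, ⟨j, rfl⟩⟩) = _
    rw [h1]
    rfl
  rw [h2]

theorem iInf_fin {G : Type} [Group G] {n : ℕ} (N : Fin n → Subgroup G) (h : ∀ i, (N i).FiniteIndex)
    (h' : ∀ i, (N i).Normal) : (⨅ i, N i).FiniteIndex ∧ (⨅ i, N i).Normal := by
  constructor
  · exact Subgroup.finiteIndex_iInf h
  · exact Subgroup.normal_iInf_normal h'

theorem t_hyp (hcrit : S_CRIT) (hsep : S_SEP) (hcomp : S_COMP) (hmatch : S_MATCH)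
    (hact : S_ACT) : S_HYP := by
  classical
  intro P Q R _ _ _ hP hQ φ ψ hφ hψ hR k x y hx hy
  -- separation
  have sx : ∀ i, ∃ N : Subgroup P, N.Normal ∧ N.FiniteIndex ∧ ∀ r, (φ r)⁻¹ * x i ∉ N :=
    fun i => hsep P R hP φ hR (x i) (hx i)
  have sy : ∀ i, ∃ N : Subgroup Q, N.Normal ∧ N.FiniteIndex ∧ ∀ r, (ψ r)⁻¹ * y i ∉ N :=
    fun i => hsep Q R hQ ψ hR (y i) (hy i)
  choose N hN1 hN2 hN3 using sx
  choose M hM1 hM2 hM3 using sy
  obtain ⟨p1, p2⟩ := iInf_fin N hN2 hN1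
  obtain ⟨q1, q2⟩ := iInf_fin M hM2 hM1
  obtain ⟨P', Q', nP, fP, nQ, fQ, lP, lQ, hPQ, r0, hr0⟩ :=
    hcomp P Q R hP hQ φ ψ hφ hψ hR (⨅ i, N i) (⨅ i, M i) p2 p1 q2 q1
  have hxn : ∀ i r, (φ r)⁻¹ * x i ∉ P' := fun i r h =>
    hN3 i r ((iInf_le N i) (lP h))
  have hyn : ∀ i r, (ψ r)⁻¹ * y i ∉ Q' := fun i r h =>
    hM3 i r ((iInf_le M i) (lQ h))
  let X := DC φ P' nP
  let Y := DC ψ Q' nQ
  let cx : P → X := dc φ P' nP
  let cy : Q → Y := dc ψ Q' nQ
  have hcx : ∀ i, cx (x i) ≠ cx 1 := by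
    intro i h
    obtain ⟨r, n, hn, e⟩ := (dc_eq φ P' nP).1 h.symm
    apply hxn i r
    rw [e]
    simpa using hn
  have hcy : ∀ i, cy (y i) ≠ cy 1 := by
    intro i h
    obtain ⟨r, n, hn, e⟩ := (dc_eq ψ Q' nQ).1 h.symm
    apply hyn i r
    rw [e]
    simpa using hn
  have fX : Finite X := dc_finite φ P' nP fP
  have fY : Finite Y := dc_finite ψ Q' nQ fQ
  -- sections
  have secX : ∃ pp : Fin (k + 1) → X → P, (∀ i a, cx (pp i a) = a) ∧ (∀ i, pp i (cx 1) = 1) ∧
      ∀ i, pp i (cx (x i)) = x i := by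
    choose o ho using dc_surj φ P' nP
    refine ⟨fun i a => if a = cx 1 then 1 else if a = cx (x i) then x i else o a, ?_, ?_, ?_⟩
    · intro i a
      dsimp only
      split_ifs with h1 h2
      · exact h1.symm
      · exact h2.symm
      · exact ho a
    · intro i
      simp
    · intro i
      dsimp only
      rw [if_neg (hcx i), if_pos rfl]
  have secY : ∃ qq : Fin (k + 1) → Y → Q, (∀ i a, cy (qq i a) = a) ∧ (∀ i, qq i (cy 1) = 1) ∧
      ∀ i, qq i (cy (y i)) = y i := by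
    choose o ho using dc_surj ψ Q' nQ
    refine ⟨fun i a => if a = cy 1 then 1 else if a = cy (y i) then y i else o a, ?_, ?_, ?_⟩
    · intro i a
      dsimp only
      split_ifs with h1 h2
      · exact h1.symm
      · exact h2.symm
      · exact ho a
    · intro i
      simp
    · intro i
      dsimp only
      rw [if_neg (hcy i), if_pos rfl]
  obtain ⟨pp, pp1, pp2, pp3⟩ := secX
  obtain ⟨qq, qq1, qq2, qq3⟩ := secY
  -- the matching permutation
  let I := Fin (k + 1) × X × Y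
  let u : Fin (k + 1) ⊕ Fin (k + 1) → I :=
    Sum.elim (fun j => (j, cx (x j), cy 1)) (fun j => (j, cx 1, cy 1))
  let v : Fin (k + 1) ⊕ Fin (k + 1) → I :=
    Sum.elim (fun j => (j, cx 1, cy 1)) (fun j => (j + 1, cx 1, cy (y (j + 1))))
  have hu : Function.Injective u := by
    rintro (a | a) (b | b) h
    · have : a = b := congrArg Prod.fst h
      rw [this]
    · exact absurd (congrArg (fun t => t.2.1) h) (hcx a)
    · exact absurd (congrArg (fun t => t.2.1) h).symm (hcx b)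
    · have : a = b := congrArg Prod.fst h
      rw [this]
  have hv : Function.Injective v := by
    rintro (a | a) (b | b) h
    · have : a = b := congrArg Prod.fst h
      rw [this]
    · exact absurd (congrArg (fun t => t.2.2) h).symm (hcy (b + 1))
    · exact absurd (congrArg (fun t => t.2.2) h) (hcy (a + 1))
    · have : a + 1 = b + 1 := congrArg Prod.fst h
      rw [add_right_cancel this]
  obtain ⟨σ, hσ⟩ := exists_perm (I := I) inferInstance u v hu hv
  let t : Zz := Multiplicative.ofAdd 1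
  let zf : I → Zz := fun ι => if ι = (Fin.last k, cx 1, cy 1) then t⁻¹ else 1
  obtain ⟨f, hf1, hf2⟩ := hmatch P Q R φ ψ P' Q' nP nQ hPQ (Fin (k + 1) × Y) (Fin (k + 1) × X) I
    (fun _ => 1) (fun _ => 1) (fun ι => (ι.1, ι.2.2)) (fun ι => pp ι.1 ι.2.1)
    (fun ι => ((σ ι).1, (σ ι).2.1)) (fun ι => qq (σ ι).1 (σ ι).2.2) zf
    (by
      rintro ⟨i, b⟩ a
      refine ⟨(i, cx a, b), rfl, ?_⟩
      exact (dc_eq φ P' nP).1 (pp1 i (cx a)))
    (by
      rintro ⟨i, b⟩ a
      refine ⟨σ.symm (i, b, cy a), ?_, ?_⟩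
      · rw [Equiv.apply_symm_apply]
      · rw [Equiv.apply_symm_apply]
        exact (dc_eq ψ Q' nQ).1 (qq1 i (cy a)))
    (by
      rintro ⟨i, a, b⟩ ⟨i', a', b'⟩ r n hn h1 h2
      simp only [Prod.mk.injEq] at h1
      obtain ⟨rfl, rfl⟩ := h1
      have h3 : cx (pp i a) = cx (pp i a') := (dc_eq φ P' nP).2 ⟨r, n, hn, h2⟩
      rw [pp1, pp1] at h3
      rw [h3])
    (by
      intro ι ι' r n hn h1 h2
      rw [Prod.mk.injEq] at h1
      obtain ⟨h1a, h1b⟩ := h1
      have h3 : cy (qq (σ ι).1 (σ ι).2.2) = cy (qq (σ ι').1 (σ ι').2.2) :=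
        (dc_eq ψ Q' nQ).2 ⟨r, n, hn, h2⟩
      rw [qq1, qq1] at h3
      apply σ.injective
      exact Prod.ext h1a (Prod.ext h1b h3))
    (by
      intro ι r h1 h2
      rfl)
  obtain ⟨Φ, T, a1, a2, a3, a4⟩ := hact P Q R φ ψ _ _ f hf1
  -- the points
  let E1 := (a : Fin (k + 1) × Y) × ((P × Zz) ⧸ Gr P' (1 : P' →* Zz))
  let e : Fin (k + 1) → E1 := fun j => ⟨(j, cy 1), QuotientGroup.mk (1, 1)⟩
  have step1 : ∀ j, f (Φ (il φ ψ (x j)) (e j)) = ⟨(j, cx 1), QuotientGroup.mk (1, 1)⟩ := by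
    intro j
    rw [a2]
    have h0 : ((x j, 1) : P × Zz) • e j =
        (⟨(j, cy 1), QuotientGroup.mk (x j, 1)⟩ : E1) := by
      change (⟨(j, cy 1), QuotientGroup.mk (x j * 1, 1 * 1)⟩ : E1) = _
      rw [mul_one, mul_one]
    rw [h0]
    have h := hf2 (u (Sum.inl j))
    have hz : zf (u (Sum.inl j)) = 1 := by
      change (if (j, cx (x j), cy 1) = (Fin.last k, cx 1, cy 1) then t⁻¹ else (1 : Zz)) = 1
      rw [if_neg]
      intro h'
      exact hcx j (congrArg (fun t => t.2.1) h')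
    rw [hσ, hz] at h
    change f (⟨(j, cy 1), QuotientGroup.mk (pp j (cx (x j)), 1)⟩ : E1) =
      ⟨(j, cx 1), QuotientGroup.mk (qq j (cy 1), 1)⟩ at h
    rw [pp3, qq2] at h
    exact h
  have step2 : ∀ j, f (e j) =
      ⟨(j + 1, cx 1), QuotientGroup.mk (y (j + 1), if j = Fin.last k then t⁻¹ else 1)⟩ := by
    intro j
    have h := hf2 (u (Sum.inr j))
    have hz : zf (u (Sum.inr j)) = if j = Fin.last k then t⁻¹ else 1 := by
      change (if (j, cx 1, cy 1) = (Fin.last k, cx 1, cy 1) then t⁻¹ else (1 : Zz)) = _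
      by_cases hj : j = Fin.last k
      · rw [if_pos hj, if_pos (by rw [hj])]
      · rw [if_neg hj, if_neg]
        intro h'
        exact hj (congrArg Prod.fst h')
    rw [hσ, hz] at h
    change f (⟨(j, cy 1), QuotientGroup.mk (pp j (cx 1), 1)⟩ : E1) =
      ⟨(j + 1, cx 1), QuotientGroup.mk (qq (j + 1) (cy (y (j + 1))), _)⟩ at h
    rw [pp2, qq3] at h
    exact h
  let e' : Fin (k + 2) → E1 := Fin.cons (T t (e (Fin.last k))) e
  have hTf : ∀ z b, f (T z b) = ((1, z) : Q × Zz) • f b := by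
    intro z b
    rw [a4]
    have := hf1 1 z b
    rw [map_one, map_one] at this
    exact this
  have hstep : ∀ i : Fin (k + 1),
      (Φ (ir φ ψ (y i) * il φ ψ (x i))) (e' i.succ) = e' i.castSucc := by
    intro i
    apply f.injective
    have hl : f (Φ (ir φ ψ (y i) * il φ ψ (x i)) (e' i.succ)) =
        ⟨(i, cx 1), QuotientGroup.mk (y i, 1)⟩ := by
      rw [map_mul, Equiv.Perm.mul_apply, a3]
      have h1 : e' i.succ = e i := rfl
      rw [h1, step1]
      change (⟨(i, cx 1), QuotientGroup.mk (y i * 1, 1 * 1)⟩ :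
        (a : Fin (k + 1) × X) × ((Q × Zz) ⧸ Gr Q' (1 : Q' →* Zz))) = _
      rw [mul_one, mul_one]
    rw [hl]
    refine Fin.cases ?_ (fun j => ?_) i
    · have h1 : e' (Fin.castSucc 0) = T t (e (Fin.last k)) := rfl
      rw [h1, hTf, step2, if_pos rfl]
      have h2 : Fin.last k + 1 = 0 := Fin.last_add_one k
      rw [h2]
      change _ = (⟨(0, cx 1), QuotientGroup.mk (1 * y 0, t * t⁻¹)⟩ :
        (a : Fin (k + 1) × X) × ((Q × Zz) ⧸ Gr Q' (1 : Q' →* Zz)))
      rw [one_mul, mul_inv_cancel]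
    · have h1 : e' (Fin.castSucc j.succ) = e j.castSucc := rfl
      rw [h1, step2]
      have h2 : j.castSucc ≠ Fin.last k := Fin.castSucc_ne_last j
      have h3 : j.castSucc + 1 = j.succ := Fin.coeSucc_eq_succ
      rw [if_neg h2, h3]
  have hfin := sig_fin P' (C := Fin (k + 1) × Y) (fun _ => (1 : P' →* Zz)) inferInstance fP
  refine hcrit _ E1 Φ T a1 ?_ ?_ _ 1 (e (Fin.last k)) t ?_ ?_
  · intro z b hb
    rw [a4] at hb
    exact sig_free P' _ z b hb
  · obtain ⟨s, hs⟩ := hfin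
    refine ⟨s, fun b => ?_⟩
    obtain ⟨b', hb', z, hz⟩ := hs b
    exact ⟨b', hb', z, by rw [a4]; exact hz⟩
  · rw [pow_one]
    have h := path_prod (k + 1) (fun i => Φ (ir φ ψ (y i) * il φ ψ (x i))) e' hstep
    have h1 : Φ (List.ofFn fun i => ir φ ψ (y i) * il φ ψ (x i)).prod =
        (List.ofFn fun i => Φ (ir φ ψ (y i) * il φ ψ (x i))).prod := by
      rw [map_list_prod, List.map_ofFn]
      rfl
    rw [h1]
    exact h
  · intro h
    have : (1 : ℤ) = 0 := congrArg Multiplicative.toAdd h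
    omega

end Pool.Agent.Y35.VR
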