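import Mathlib
import Pool.Agent.Y35.VR.Hyp
import Pool.Agent.Y35.VR.Ell
import Pool.Agent.Y35.VR.Act
import Pool.Agent.Y35.VR.Comp
import Pool.Agent.Y267.VR.Div
import Pool.Agent.Y473.VR.Nf
import Pool.Agent.Y473.VR.Out
import Pool.Agent.Y74.VR.Glue
import Pool.Agent.Y74.VR.Crit

/-!
# Property (VRC) is preserved by amalgams over virtually cyclic subgroups

A group has property (VRC) if every cyclic subgroup is a virtual retract. We prove: if `P` and `Q`
are groups with (VRC) and `R` is a virtually cyclic group embedded in `P` and in `Q`, then the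
amalgamated free product `P *_R Q` has (VRC). This answers the question of the problem in full,
for all groups `P`, `Q` (finitely generated or not) and all virtually cyclic `R`.

Idea of the proof. By (VRC) there are normal subgroups of finite index `P' ≤ P`, `Q' ≤ Q` with
`P' ∩ R = Q' ∩ R = ⟨r₀⟩` and homomorphisms `χ : P' → ℤ`, `θ : Q' → ℤ` detecting a given element of
`P` and `r₀`. Put `a(x) = χ(x⁻¹ r₀ x)` and `b(y) = θ(y⁻¹ r₀ y)`. Take one copy of the `P`-set
induced from `b(y) χ` for every double coset `R y Q'`, and one copy of the `Q`-set induced from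
`a(x) θ` for every double coset `R x P'`: the orbits of `R` on the two sets are both indexed by the
pairs `(x, y)` and both of the type `a(x) b(y)`, so the two sets are isomorphic as sets with an
action of `R × ℤ`, and the amalgam acts on them. Cyclically reduced words are treated by the same
gluing with trivial labels and one shift.
-/

set_option autoImplicit false

namespace Pool.Agent.Y35.VR.Main

/-- The subgroup `H` of `G` is a virtual retract: there are a subgroup `K` of finite index
containing `H` and a homomorphism `ρ : K → H` whose restriction to `H` is the identity. -/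
def IsVirtualRetract {G : Type} [Group G] (H : Subgroup G) : Prop :=
  ∃ (K : Subgroup G) (h : H ≤ K) (ρ : K →* H), K.FiniteIndex ∧ ∀ x : H, ρ ⟨x.1, h x.2⟩ = x

/-- Property (VRC): every cyclic subgroup is a virtual retract. -/
def HasVRC (G : Type) [Group G] : Prop := ∀ g : G, IsVirtualRetract (Subgroup.zpowers g)

/-- A group is virtually cyclic if it has a cyclic subgroup of finite index. -/
def IsVirtuallyCyclic (R : Type) [Group R] : Prop := ∃ r : R, (Subgroup.zpowers r).FiniteIndex

/-- The normal subgroup of the free product `P * Q` generated by the elements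
`φ(r) ψ(r)⁻¹`, `r ∈ R`. -/
def relations {P Q R : Type} [Group P] [Group Q] [Group R] (φ : R →* P) (ψ : R →* Q) :
    Subgroup (Monoid.Coprod P Q) :=
  Subgroup.normalClosure
    (Set.range fun r : R => Monoid.Coprod.inl (φ r) * (Monoid.Coprod.inr (ψ r))⁻¹)

instance {P Q R : Type} [Group P] [Group Q] [Group R] (φ : R →* P) (ψ : R →* Q) :
    (relations φ ψ).Normal := by
  unfold relations
  infer_instance

/-- The amalgamated free product of `P` and `Q` along `φ : R → P` and `ψ : R → Q`. -/
abbrev Amalgam {P Q R : Type} [Group P] [Group Q] [Group R] (φ : R →* P) (ψ : R →* Q) : Type :=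
  Monoid.Coprod P Q ⧸ relations φ ψ

/-- If `P` and `Q` have (VRC) and `R` is a virtually cyclic group with embeddings in `P` and `Q`,
then the amalgamated free product `P *_R Q` has (VRC). -/
theorem result {P Q R : Type} [Group P] [Group Q] [Group R] (φ : R →* P) (ψ : R →* Q)
    (hφ : Function.Injective φ) (hψ : Function.Injective ψ) (hR : IsVirtuallyCyclic R)
    (hP : HasVRC P) (hQ : HasVRC Q) : HasVRC (Amalgam φ ψ) := by
  have hinf := Pool.Agent.Y473.VR.t_inf
  have hrf := Pool.Agent.Y473.VR.t_rf
  have hsep := Pool.Agent.Y473.VR.t_sep hrf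
  have hdiv := Pool.Agent.Y267.VR.t_div hinf hsep
  have hcomp := Pool.Agent.Y35.VR.t_comp hdiv hrf
  have hmatch := Pool.Agent.Y74.VR.t_match Pool.Agent.Y74.VR.t_glue
  have hcrit := Pool.Agent.Y74.VR.t_crit
  have hcritf := Pool.Agent.Y74.VR.t_critf
  have hact := Pool.Agent.Y35.VR.t_act
  have hell := Pool.Agent.Y35.VR.t_ell hcrit hcritf hinf hrf hcomp hmatch hact
  have hhyp := Pool.Agent.Y35.VR.t_hyp hcrit hsep hcomp hmatch hact
  exact Pool.Agent.Y35.VR.main_of Pool.Agent.Y473.VR.Nf.t_nf Pool.Agent.Y473.VR.t_iso
    Pool.Agent.Y35.VR.t_sym hell hhyp P Q R hP hQ φ ψ hφ hψ hR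

end Pool.Agent.Y35.VR.Main
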